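import Mathlib

set_option autoImplicit false

namespace Pool.Agent.Results.MP_9227d9_nt.InfinitelyManyEvenZeros

theorem abs_mod2 (x : ℤ) : |x| % 2 = x % 2 := by
  rcases abs_choice x with h | h <;> rw [h]; omega

theorem nonneg (m : ℕ) (a : ℕ → ℤ) (ha1 : a 1 = 4 * (m : ℤ) ^ 2)
    (ha : ∀ n : ℕ, 2 ≤ n →
      a n = |a (n - 1) - ((Int.gcd (a (n - 1)) ((n : ℤ) * ((n : ℤ) + 2 * (m : ℤ)))) : ℤ)|) :
    ∀ n, 1 ≤ n → 0 ≤ a n := by
  intro n hn
  rcases (show n = 1 ∨ 2 ≤ n by omega) with h | h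
  · rw [h, ha1]; positivity
  · rw [ha n h]; exact abs_nonneg _

theorem decrease (m : ℕ) (a : ℕ → ℤ) (ha1 : a 1 = 4 * (m : ℤ) ^ 2)
    (ha : ∀ n : ℕ, 2 ≤ n →
      a n = |a (n - 1) - ((Int.gcd (a (n - 1)) ((n : ℤ) * ((n : ℤ) + 2 * (m : ℤ)))) : ℤ)|)
    (n : ℕ) (hn : 1 ≤ n) (h0 : a n ≠ 0) : a (n + 1) + 1 ≤ a n := by
  have hpos : 0 < a n := lt_of_le_of_ne (nonneg m a ha1 ha n hn) (Ne.symm h0)
  rw [ha (n + 1) (by omega)]
  have e : n + 1 - 1 = n := by omega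
  rw [e]
  set g := Int.gcd (a n) (((n + 1 : ℕ) : ℤ) * (((n + 1 : ℕ) : ℤ) + 2 * (m : ℤ))) with hg
  have g1 : ((g : ℕ) : ℤ) ∣ a n := Int.gcd_dvd_left _ _
  have g2 : ((g : ℕ) : ℤ) ≤ a n := Int.le_of_dvd hpos g1
  have g3 : 0 < g := Int.gcd_pos_of_ne_zero_left _ h0
  have g4 : (1 : ℤ) ≤ g := by exact_mod_cast g3
  rw [abs_of_nonneg (by linarith)]
  linarith

theorem parity (m : ℕ) (a : ℕ → ℤ) (ha1 : a 1 = 4 * (m : ℤ) ^ 2)
    (ha : ∀ n : ℕ, 2 ≤ n →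
      a n = |a (n - 1) - ((Int.gcd (a (n - 1)) ((n : ℤ) * ((n : ℤ) + 2 * (m : ℤ)))) : ℤ)|) :
    ∀ n : ℕ, 2 ≤ n → a n % 2 = (n : ℤ) % 2 := by
  intro n hn
  induction n, hn using Nat.le_induction with
  | base =>
    rw [ha 2 le_rfl, abs_mod2]
    have e : 2 - 1 = 1 := rfl
    rw [e, ha1]
    have g1 : (2 : ℤ) ∣ (Int.gcd (4 * (m : ℤ) ^ 2) (((2 : ℕ) : ℤ) * (((2 : ℕ) : ℤ) + 2 * (m : ℤ))) : ℤ) := by
      apply Int.dvd_coe_gcd
      · exact ⟨2 * (m : ℤ) ^ 2, by ring⟩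
      · exact ⟨((2 : ℕ) : ℤ) + 2 * (m : ℤ), by push_cast; ring⟩
    generalize (m : ℤ) ^ 2 = x at *
    omega
  | succ n hn ih =>
    rw [ha (n + 1) (by omega), abs_mod2]
    have e : n + 1 - 1 = n := by omega
    rw [e]
    set g := Int.gcd (a n) (((n + 1 : ℕ) : ℤ) * (((n + 1 : ℕ) : ℤ) + 2 * (m : ℤ))) with hg
    have g1 : ((g : ℕ) : ℤ) ∣ a n := Int.gcd_dvd_left _ _
    have g2 : ((g : ℕ) : ℤ) ∣ ((n + 1 : ℕ) : ℤ) * (((n + 1 : ℕ) : ℤ) + 2 * (m : ℤ)) :=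
      Int.gcd_dvd_right _ _
    have hodd : ((g : ℕ) : ℤ) % 2 = 1 := by
      by_contra hcon
      have h2 : ((g : ℕ) : ℤ) % 2 = 0 := by omega
      rcases Nat.even_or_odd n with h | h
      · have h' := Nat.even_iff.1 h
        obtain ⟨c, hc⟩ := g2
        have h3 : (((n + 1 : ℕ) : ℤ) * (((n + 1 : ℕ) : ℤ) + 2 * (m : ℤ))) % 2 = 0 := by
          rw [hc, Int.mul_emod, h2]; simp
        rw [Int.mul_emod] at h3
        have h4 : ((n + 1 : ℕ) : ℤ) % 2 = 1 := by push_cast; omega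
        have h5 : (((n + 1 : ℕ) : ℤ) + 2 * (m : ℤ)) % 2 = 1 := by omega
        rw [h4, h5] at h3
        norm_num at h3
      · have h' := Nat.odd_iff.1 h
        obtain ⟨c, hc⟩ := g1
        have h3 : a n % 2 = 0 := by
          rw [hc, Int.mul_emod, h2]; simp
        omega
    push_cast
    omega

/-- For every `m ≥ 1` the sequence of the problem has infinitely many zeros, and every zero `n` is
even, so that `n+1` and `n+2m+1` are both odd. -/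
theorem result :
    ∀ m : ℕ, 1 ≤ m → ∀ a : ℕ → ℤ, a 1 = 4 * (m : ℤ) ^ 2 →
      (∀ n : ℕ, 2 ≤ n →
        a n = |a (n - 1) - ((Int.gcd (a (n - 1)) ((n : ℤ) * ((n : ℤ) + 2 * (m : ℤ)))) : ℤ)|) →
      {n : ℕ | 1 ≤ n ∧ a n = 0 ∧ Odd (n + 1) ∧ Odd (n + 2 * m + 1)}.Infinite ∧
      ∀ n : ℕ, 1 ≤ n → a n = 0 → Odd (n + 1) ∧ Odd (n + 2 * m + 1) := by
  intro m hm a ha1 ha
  have hall : ∀ n : ℕ, 1 ≤ n → a n = 0 → Odd (n + 1) ∧ Odd (n + 2 * m + 1) := by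
    intro n hn h0
    have hn2 : 2 ≤ n := by
      rcases (show n = 1 ∨ 2 ≤ n by omega) with h | h
      · subst h
        rw [ha1] at h0
        have : (1 : ℤ) ≤ m := by exact_mod_cast hm
        nlinarith
      · exact h
    have h1 := parity m a ha1 ha n hn2
    rw [h0] at h1
    rw [Nat.odd_iff, Nat.odd_iff]
    omega
  refine ⟨?_, hall⟩
  rw [Set.infinite_iff_exists_gt]
  intro B
  by_contra hcon
  push Not at hcon
  have hne : ∀ n, B < n → a n ≠ 0 := by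
    intro n hn h0
    have h1 := hall n (by omega) h0
    have h2 := hcon n ⟨by omega, h0, h1.1, h1.2⟩
    omega
  have hdec : ∀ k : ℕ, a (B + 1 + k) + k ≤ a (B + 1) := by
    intro k
    induction k with
    | zero => simp
    | succ k ih =>
      have := decrease m a ha1 ha (B + 1 + k) (by omega) (hne _ (by omega))
      have e : B + 1 + (k + 1) = B + 1 + k + 1 := by ring
      rw [e]
      push_cast
      linarith
  have h1 := hdec ((a (B + 1)).toNat + 1)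
  have h2 := nonneg m a ha1 ha (B + 1 + ((a (B + 1)).toNat + 1)) (by omega)
  have h3 := Int.toNat_of_nonneg (nonneg m a ha1 ha (B + 1) (by omega))
  push_cast at h1
  rw [h3] at h1
  linarith

end Pool.Agent.Results.MP_9227d9_nt.InfinitelyManyEvenZeros
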